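import Mathlib

set_option autoImplicit false
set_option linter.unusedSectionVars false

open Set Filter Topology Metric

namespace Pool.Agent.KS6_53.El

/-- `a * star a = ‖a‖ ^ 2`. -/
class Conj (K : Type) [NormedDivisionRing K] [NormedAlgebra ℝ K] [StarRing K] : Prop where
  mul_star : ∀ a : K, a * star a = algebraMap ℝ K (‖a‖ ^ 2)

section Alg

variable {K : Type} [NormedDivisionRing K] [NormedAlgebra ℝ K] [StarRing K] [Conj K]

theorem norm_star' (a : K) : ‖star a‖ = ‖a‖ := by
  by_cases h : a = 0
  · rw [h, star_zero]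
  · have h1 : ‖a‖ * ‖star a‖ = ‖a‖ ^ 2 := by
      rw [← norm_mul, Conj.mul_star, norm_algebraMap', Real.norm_eq_abs, abs_of_nonneg (by positivity)]
    have h2 : ‖a‖ ≠ 0 := norm_ne_zero_iff.2 h
    have h3 : ‖a‖ * ‖star a‖ = ‖a‖ * ‖a‖ := by rw [h1, sq]
    exact mul_left_cancel₀ h2 h3

theorem star_mul_self'' (a : K) : star a * a = algebraMap ℝ K (‖a‖ ^ 2) := by
  have := Conj.mul_star (star a)
  rwa [star_star, norm_star'] at this

theorem star_real (r : ℝ) : star (algebraMap ℝ K r) = algebraMap ℝ K r := by
  by_cases h : r = 0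
  · rw [h, map_zero, star_zero]
  · have h1 := Conj.mul_star (algebraMap ℝ K r)
    rw [norm_algebraMap', Real.norm_eq_abs, sq_abs, sq, map_mul] at h1
    have h2 : algebraMap ℝ K r ≠ 0 := by
      rw [Ne, FaithfulSMul.algebraMap_eq_zero_iff]
      exact h
    exact mul_left_cancel₀ h2 h1

theorem star_rsmul (r : ℝ) (a : K) : star (r • a) = r • star a := by
  rw [Algebra.smul_def, StarMul.star_mul, star_real, Algebra.smul_def]
  exact (Algebra.commutes r (star a)).symm

theorem continuous_star' : Continuous (star : K → K) := by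
  have : Isometry (star : K → K) := by
    apply Isometry.of_dist_eq
    intro a b
    rw [dist_eq_norm, dist_eq_norm, ← star_sub, norm_star']
  exact this.continuous

variable {n : ℕ}

/-- The hermitian product. -/
noncomputable def herm (x y : Fin n → K) : K := ∑ i, x i * star (y i)

/-- The square of the norm. -/
noncomputable def N (x : Fin n → K) : ℝ := ∑ i, ‖x i‖ ^ 2

theorem herm_add_left (x x' y : Fin n → K) : herm (x + x') y = herm x y + herm x' y := by
  simp only [herm, Pi.add_apply, add_mul, Finset.sum_add_distrib]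

theorem herm_sub_left (x x' y : Fin n → K) : herm (x - x') y = herm x y - herm x' y := by
  simp only [herm, Pi.sub_apply, sub_mul, Finset.sum_sub_distrib]

theorem herm_smul_left (a : K) (x y : Fin n → K) : herm (a • x) y = a * herm x y := by
  simp only [herm, Pi.smul_apply, smul_eq_mul, mul_assoc, Finset.mul_sum]

theorem herm_star (x y : Fin n → K) : star (herm x y) = herm y x := by
  simp only [herm, star_sum, StarMul.star_mul, star_star]

theorem herm_sum_left {ι : Type} (s : Finset ι) (f : ι → Fin n → K) (y : Fin n → K) :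
    herm (∑ i ∈ s, f i) y = ∑ i ∈ s, herm (f i) y := by
  simp only [herm, Finset.sum_apply, Finset.sum_mul]
  rw [Finset.sum_comm]

theorem herm_self (x : Fin n → K) : herm x x = algebraMap ℝ K (N x) := by
  simp only [herm, N, Conj.mul_star, map_sum]

theorem N_nonneg (x : Fin n → K) : 0 ≤ N x := Finset.sum_nonneg fun i _ => by positivity

theorem N_pos {x : Fin n → K} (hx : x ≠ 0) : 0 < N x := by
  obtain ⟨i, hi⟩ := Function.ne_iff.1 hx
  refine lt_of_lt_of_le (b := ‖x i‖ ^ 2) ?_ (Finset.single_le_sum (f := fun i => ‖x i‖ ^ 2)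
    (fun i _ => by positivity) (Finset.mem_univ i))
  have : x i ≠ 0 := hi
  positivity

theorem herm_self_ne {x : Fin n → K} (hx : x ≠ 0) : herm x x ≠ 0 := by
  rw [herm_self, Ne, FaithfulSMul.algebraMap_eq_zero_iff]
  exact (N_pos hx).ne'

theorem herm_comm_zero {x y : Fin n → K} : herm x y = 0 ↔ herm y x = 0 := by
  rw [← herm_star x y, star_eq_zero]

theorem herm_zero_left (y : Fin n → K) : herm 0 y = 0 := by simp [herm]

theorem herm_add_right (x y y' : Fin n → K) : herm x (y + y') = herm x y + herm x y' := by
  simp only [herm, Pi.add_apply, star_add, mul_add, Finset.sum_add_distrib]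

theorem herm_sub_right (x y y' : Fin n → K) : herm x (y - y') = herm x y - herm x y' := by
  simp only [herm, Pi.sub_apply, star_sub, mul_sub, Finset.sum_sub_distrib]

theorem herm_smul_right (a : K) (x y : Fin n → K) : herm x (a • y) = herm x y * star a := by
  simp only [herm, Pi.smul_apply, smul_eq_mul, StarMul.star_mul, ← mul_assoc, Finset.sum_mul]

theorem continuous_herm : Continuous fun p : (Fin n → K) × (Fin n → K) => herm p.1 p.2 := by
  apply continuous_finsetSum
  intro i _
  exact ((continuous_apply i).comp continuous_fst).mul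
    (continuous_star'.comp ((continuous_apply i).comp continuous_snd))

theorem continuous_N : Continuous (N : (Fin n → K) → ℝ) := by
  apply continuous_finsetSum
  intro i _
  exact ((continuous_apply i).norm).pow 2

/-- The component of `x` orthogonal to `a`. -/
noncomputable def proj (a x : Fin n → K) : Fin n → K := x - ((N a)⁻¹ • herm x a) • a

theorem herm_proj {a : Fin n → K} (ha : a ≠ 0) (x : Fin n → K) : herm (proj a x) a = 0 := by
  rw [proj, herm_sub_left, herm_smul_left, herm_self, Algebra.smul_def, mul_assoc,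
    ← Algebra.commutes (N a) (herm x a), ← mul_assoc, ← map_mul, inv_mul_cancel₀ (N_pos ha).ne',
    map_one, one_mul, sub_self]

theorem proj_tendsto {y x : Fin n → K} (hy : y ≠ 0) (hxy : herm x y = 0) :
    Tendsto (fun a => proj a x) (𝓝 y) (𝓝 x) := by
  have h1 : Tendsto (fun a : Fin n → K => herm x a) (𝓝 y) (𝓝 (herm x y)) :=
    (continuous_herm.comp (Continuous.prodMk_right x)).tendsto y
  have h2 : Tendsto (fun a : Fin n → K => (N a)⁻¹) (𝓝 y) (𝓝 (N y)⁻¹) :=
    (continuous_N.tendsto y).inv₀ (N_pos hy).ne'
  have h3 := (tendsto_const_nhds (x := x)).sub ((h2.smul h1).smul tendsto_id)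
  rw [hxy, smul_zero, zero_smul, sub_zero] at h3
  exact h3

end Alg

instance : Conj ℝ where
  mul_star a := by
    rw [star_trivial, Real.norm_eq_abs, sq_abs, sq]; rfl

instance : Conj ℂ where
  mul_star a := by
    rw [Complex.star_def, Complex.mul_conj, Complex.normSq_eq_norm_sq]; rfl

open Quaternion in
instance : Conj ℍ[ℝ] where
  mul_star a := by
    rw [Quaternion.self_mul_star, Quaternion.normSq_eq_norm_mul_self, ← sq]; rfl

end Pool.Agent.KS6_53.El
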