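import Pool.Agent.KS6_53.El.E1
import Pool.Graph.R_pool_sql_team_3845a38e.TopoDim.NoInj

set_option autoImplicit false
set_option linter.unusedSectionVars false

open Set Filter Topology Metric

namespace Pool.Agent.KS6_53.El

/-- `ℝⁿ` -/
abbrev E (n : ℕ) := EuclideanSpace ℝ (Fin n)

variable {K : Type} [NormedDivisionRing K] [NormedAlgebra ℝ K] [StarRing K] [Conj K]
variable {n m : ℕ}

/-- Homogeneous description of a continuous map of an open subset of elliptic space preserving the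
set of diameters. -/
structure IsDiam (W : Set (Fin n → K)) (Φ : (Fin n → K) → E m) (D : ℝ) : Prop where
  opn : IsOpen W
  ne : ∀ x ∈ W, x ≠ 0
  cont : ContinuousOn Φ W
  le : ∀ x ∈ W, ∀ y ∈ W, ‖Φ x - Φ y‖ ≤ D
  iff : ∀ x ∈ W, ∀ y ∈ W, (‖Φ x - Φ y‖ = D ↔ herm x y = 0)

variable {W : Set (Fin n → K)} {Φ : (Fin n → K) → E m} {D : ℝ}

theorem IsDiam.cont_at (h : IsDiam W Φ D) {x : Fin n → K} (hx : x ∈ W) : ContinuousAt Φ x :=
  (h.cont x hx).continuousAt (h.opn.mem_nhds hx)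

theorem IsDiam.inj (h : IsDiam W Φ D) {y z : Fin n → K} (hy : y ∈ W) (hz : z ∈ W)
    (hzy : herm z y = 0) :
    ∀ᶠ a in 𝓝 y, a ∈ W ∧ ∀ b ∈ W, Φ a = Φ b → ∃ c : K, b = c • a := by
  have h1 : ∀ᶠ a in 𝓝 y, proj a z ∈ W :=
    (proj_tendsto (h.ne y hy) hzy).eventually (h.opn.mem_nhds hz)
  filter_upwards [h1, h.opn.mem_nhds hy] with a hza haW
  refine ⟨haW, fun b hb hab => ?_⟩
  have ha0 := h.ne a haW
  by_cases hb' : proj a b = 0
  · exact ⟨_, sub_eq_zero.1 hb'⟩
  exfalso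
  set b' := proj a b with hbdef
  have hb'a : herm b' a = 0 := herm_proj ha0 b
  set w := proj a z with hw
  have hwa : herm w a = 0 := herm_proj ha0 z
  have hcont : Tendsto (fun t : ℝ => w + (algebraMap ℝ K t) • b') (𝓝 0) (𝓝 w) := by
    have hc : Continuous (fun t : ℝ => w + (algebraMap ℝ K t) • b') :=
      continuous_const.add ((algebraMapCLM ℝ K).continuous.smul continuous_const)
    have := hc.tendsto 0
    simp only [map_zero, zero_smul, add_zero] at this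
    exact this
  have h2 : ∀ᶠ t in 𝓝[≠] (0 : ℝ), w + (algebraMap ℝ K t) • b' ∈ W :=
    (hcont.mono_left nhdsWithin_le_nhds).eventually (h.opn.mem_nhds hza)
  obtain ⟨t, ht, ht0⟩ := (h2.and self_mem_nhdsWithin).exists
  have key : ∀ v ∈ W, herm v a = 0 → herm v b = 0 := by
    intro v hv hva
    have h3 := (h.iff v hv a haW).2 hva
    rw [hab] at h3
    exact (h.iff v hv b hb).1 h3
  have h4 := key w hza hwa
  have h5 := key _ ht (by rw [herm_add_left, herm_smul_left, hwa, hb'a, mul_zero, add_zero])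
  rw [herm_add_left, herm_smul_left, h4, zero_add] at h5
  have ht1 : algebraMap ℝ K t ≠ 0 := by
    rw [Ne, FaithfulSMul.algebraMap_eq_zero_iff]
    exact ht0
  have h6 : herm b' b = 0 := (mul_eq_zero.1 h5).resolve_left ht1
  have h7 : herm b' b' = 0 := by
    nth_rewrite 2 [hbdef]
    rw [proj, herm_sub_right, herm_smul_right, h6, hb'a, zero_mul, sub_zero]
  exact herm_self_ne hb' h7

/-- the one-sided secant lemma -/
theorem IsDiam.secant (h : IsDiam W Φ D) {y : Fin n → K} (hy : y ∈ W) {a b : ℕ → Fin n → K}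
    (ha0 : ∀ r, a r ∈ W) (hb0 : ∀ r, b r ∈ W) (ha : Tendsto a atTop (𝓝 y))
    {e : E m} (he : Tendsto (fun r => ‖Φ (a r) - Φ (b r)‖⁻¹ • (Φ (a r) - Φ (b r))) atTop (𝓝 e))
    {x : Fin n → K} (hx : x ∈ W) (hxy : herm x y = 0) : inner ℝ (Φ x - Φ y) e ≤ 0 := by
  set c : ℕ → Fin n → K := fun r => proj (a r) x with hc
  have hct : Tendsto c atTop (𝓝 x) := (proj_tendsto (h.ne y hy) hxy).comp ha
  have hc0 : ∀ᶠ r in atTop, c r ∈ W := hct.eventually (h.opn.mem_nhds hx)
  have horth : ∀ r, herm (c r) (a r) = 0 := fun r => herm_proj (h.ne _ (ha0 r)) x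
  have hΦc : Tendsto (fun r => Φ (c r)) atTop (𝓝 (Φ x)) := (h.cont_at hx).tendsto.comp hct
  have hΦa : Tendsto (fun r => Φ (a r)) atTop (𝓝 (Φ y)) := (h.cont_at hy).tendsto.comp ha
  have hlim := (hΦc.sub hΦa).inner (𝕜 := ℝ) he
  apply le_of_tendsto hlim
  filter_upwards [hc0] with r hr
  rw [inner_smul_right]
  have h1 : ‖Φ (c r) - Φ (a r)‖ = D := (h.iff _ hr _ (ha0 r)).2 (horth r)
  have h2 : ‖Φ (c r) - Φ (b r)‖ ≤ D := h.le _ hr _ (hb0 r)
  have h3 : Φ (c r) - Φ (b r) = (Φ (c r) - Φ (a r)) + (Φ (a r) - Φ (b r)) := by abel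
  have h4 : ‖Φ (c r) - Φ (b r)‖ ^ 2 = D ^ 2 + 2 * inner ℝ (Φ (c r) - Φ (a r)) (Φ (a r) - Φ (b r)) +
      ‖Φ (a r) - Φ (b r)‖ ^ 2 := by
    rw [h3, norm_add_sq_real, h1]
  have h5 : ‖Φ (c r) - Φ (b r)‖ ^ 2 ≤ D ^ 2 := by
    apply pow_le_pow_left₀ (norm_nonneg _) h2
  have h6 : inner ℝ (Φ (c r) - Φ (a r)) (Φ (a r) - Φ (b r)) ≤ 0 := by
    nlinarith [sq_nonneg ‖Φ (a r) - Φ (b r)‖]
  exact mul_nonpos_of_nonneg_of_nonpos (inv_nonneg.2 (norm_nonneg _)) h6

theorem IsDiam.secant_eq (h : IsDiam W Φ D) {y : Fin n → K} (hy : y ∈ W) {a b : ℕ → Fin n → K}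
    (ha0 : ∀ r, a r ∈ W) (hb0 : ∀ r, b r ∈ W) (ha : Tendsto a atTop (𝓝 y))
    (hb : Tendsto b atTop (𝓝 y))
    {e : E m} (he : Tendsto (fun r => ‖Φ (a r) - Φ (b r)‖⁻¹ • (Φ (a r) - Φ (b r))) atTop (𝓝 e))
    {x : Fin n → K} (hx : x ∈ W) (hxy : herm x y = 0) : inner ℝ (Φ x - Φ y) e = 0 := by
  apply le_antisymm (h.secant hy ha0 hb0 ha he hx hxy)
  have he' : Tendsto (fun r => ‖Φ (b r) - Φ (a r)‖⁻¹ • (Φ (b r) - Φ (a r))) atTop (𝓝 (-e)) := by
    apply he.neg.congr
    intro r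
    rw [norm_sub_rev, ← smul_neg, neg_sub]
  have := h.secant hy hb0 ha0 hb he' hx hxy
  rw [inner_neg_right] at this
  linarith

/-- An orthogonal basis `f` whose first `k` vectors are in `W`. -/
structure Frame (W : Set (Fin n → K)) (k : ℕ) (f : Fin n → Fin n → K) : Prop where
  ne : ∀ i, f i ≠ 0
  orth : ∀ i l, i ≠ l → herm (f i) (f l) = 0
  mem : ∀ i : Fin n, (i : ℕ) < k → f i ∈ W

/-- the point sets -/
def P (W : Set (Fin n → K)) (f : Fin n → Fin n → K) (j : ℕ) : Set (Fin n → K) :=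
  {x | (∃ i : Fin n, (i : ℕ) < j ∧ x = f i) ∨ (x ∈ W ∧ ∀ i : Fin n, (i : ℕ) < j → herm x (f i) = 0)}

/-- the spans -/
noncomputable def S (W : Set (Fin n → K)) (f : Fin n → Fin n → K) (Φ : (Fin n → K) → E m) (j : ℕ) :
    Submodule ℝ (E m) :=
  Submodule.span ℝ {v | ∃ x ∈ P W f j, ∃ y ∈ P W f j, v = Φ x - Φ y}

variable {f : Fin n → Fin n → K} {k : ℕ}

theorem P_W (hf : Frame W k f) {j : ℕ} (hj : j ≤ k) {x : Fin n → K} (hx : x ∈ P W f j) : x ∈ W := by
  rcases hx with ⟨i, hi, rfl⟩ | hx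
  · exact hf.mem i (by omega)
  · exact hx.1

theorem P_succ (hf : Frame W k f) (j : Fin n) (hj : (j : ℕ) < k) {x : Fin n → K}
    (hx : x ∈ P W f ((j : ℕ) + 1)) :
    x ∈ P W f j ∧ (x = f j ∨ herm x (f j) = 0) := by
  rcases hx with ⟨i, hi, rfl⟩ | ⟨h0, hx⟩
  · by_cases hij : (i : ℕ) < j
    · refine ⟨Or.inl ⟨i, hij, rfl⟩, Or.inr (hf.orth i j ?_)⟩
      rintro rfl
      exact lt_irrefl _ hij
    · have hij' : i = j := Fin.ext (by omega)
      subst hij'
      refine ⟨Or.inr ⟨hf.mem i hj, fun l hl => hf.orth i l ?_⟩, Or.inl rfl⟩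
      rintro rfl
      exact lt_irrefl _ hl
  · exact ⟨Or.inr ⟨h0, fun l hl => hx l (by omega)⟩, Or.inr (hx _ (by simp))⟩

theorem S_mono (hf : Frame W k f) (j : Fin n) (hj : (j : ℕ) < k) :
    S W f Φ ((j : ℕ) + 1) ≤ S W f Φ j := by
  apply Submodule.span_mono
  rintro v ⟨x, hx, y, hy, rfl⟩
  exact ⟨x, (P_succ hf j hj hx).1, y, (P_succ hf j hj hy).1, rfl⟩

/-- the chart around `f j` -/
noncomputable def z (f : Fin n → Fin n → K) (j : Fin n) (u : {l : Fin n // j < l} → K) :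
    Fin n → K := f j + ∑ l, u l • f l.1

theorem z_zero (j : Fin n) : z f j 0 = f j := by simp [z]

theorem z_cont (j : Fin n) : Continuous (z f j) := by
  apply continuous_const.add
  apply continuous_finsetSum
  intro l _
  exact (continuous_apply l).smul continuous_const

theorem z_lt (hf : Frame W k f) (j i : Fin n) (hi : i < j) (u : {l : Fin n // j < l} → K) :
    herm (z f j u) (f i) = 0 := by
  rw [z, herm_add_left, hf.orth j i hi.ne', zero_add, herm_sum_left]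
  apply Finset.sum_eq_zero
  intro l _
  rw [herm_smul_left, hf.orth l.1 i (hi.trans l.2).ne', mul_zero]

theorem z_j (hf : Frame W k f) (j : Fin n) (u : {l : Fin n // j < l} → K) :
    herm (z f j u) (f j) = herm (f j) (f j) := by
  rw [z, herm_add_left, herm_sum_left, Finset.sum_eq_zero, add_zero]
  intro l _
  rw [herm_smul_left, hf.orth l.1 j l.2.ne', mul_zero]

theorem z_gt (hf : Frame W k f) (j : Fin n) (u : {l : Fin n // j < l} → K)
    (l : {l : Fin n // j < l}) : herm (z f j u) (f l.1) = u l * herm (f l.1) (f l.1) := by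
  rw [z, herm_add_left, hf.orth j l.1 l.2.ne, zero_add, herm_sum_left, Finset.sum_eq_single l]
  · rw [herm_smul_left]
  · intro l' _ hne
    rw [herm_smul_left, hf.orth l'.1 l.1 (fun h => hne (Subtype.ext h)), mul_zero]
  · intro h
    exact absurd (Finset.mem_univ _) h

theorem z_inj (hf : Frame W k f) (j : Fin n) {u u' : {l : Fin n // j < l} → K} {c : K}
    (h : z f j u' = c • z f j u) : u = u' := by
  have h1 : herm (f j) (f j) = c * herm (f j) (f j) := by
    have := congrArg (fun v => herm v (f j)) h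
    simp only [herm_smul_left, z_j hf] at this
    exact this
  have hc : c = 1 := by
    have h2 : (1 : K) * herm (f j) (f j) = c * herm (f j) (f j) := by rw [one_mul]; exact h1
    exact (mul_right_cancel₀ (herm_self_ne (hf.ne j)) h2).symm
  rw [hc, one_smul] at h
  funext l
  have := congrArg (fun v => herm v (f l.1)) h
  simp only [z_gt hf] at this
  exact (mul_right_cancel₀ (herm_self_ne (hf.ne l.1)) this).symm

theorem z_mem (hf : Frame W k f) (j : Fin n) (u : {l : Fin n // j < l} → K) (hu : z f j u ∈ W) :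
    z f j u ∈ P W f j :=
  Or.inr ⟨hu, fun i hi => z_lt hf j i hi u⟩

end Pool.Agent.KS6_53.El
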