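import Pool.Agent.KS6_53.El.E2

set_option autoImplicit false
set_option linter.unusedSectionVars false

open Set Filter Topology Metric

namespace Pool.Agent.KS6_53.El

variable {K : Type} [NormedDivisionRing K] [NormedAlgebra ℝ K] [StarRing K] [Conj K]
variable {n m : ℕ}
variable {W : Set (Fin n → K)} {Φ : (Fin n → K) → E m} {D : ℝ}
variable {f : Fin n → Fin n → K} {k : ℕ}

theorem card_gt (j : Fin n) : Fintype.card {l : Fin n // j < l} = n - 1 - j := by
  rw [Fintype.card_subtype, Finset.filter_lt_eq_Ioi, Fin.card_Ioi]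

open Pool.Agent.TopoDim in
/-- the key dimension step -/
theorem step [FiniteDimensional ℝ K] (h : IsDiam W Φ D) (hf : Frame W k f) (hk : 2 ≤ k) (hkn : k ≤ n)
    (j : Fin n) (hj : (j : ℕ) < k) :
    Module.finrank ℝ (S W f Φ ((j : ℕ) + 1)) + (n - 1 - j) * Module.finrank ℝ K ≤
      Module.finrank ℝ (S W f Φ j) := by
  classical
  by_contra hcon
  push Not at hcon
  set y : Fin n → K := f j with hy
  have hyW : y ∈ W := hf.mem j hj
  obtain ⟨i, hi, hij⟩ : ∃ i : Fin n, (i : ℕ) < k ∧ i ≠ j := by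
    by_cases h0 : (j : ℕ) = 0
    · refine ⟨⟨1, by omega⟩, by simp; omega, fun h' => ?_⟩
      have := congrArg Fin.val h'
      simp at this
      omega
    · refine ⟨⟨0, by omega⟩, by simp; omega, fun h' => ?_⟩
      have := congrArg Fin.val h'
      simp at this
      omega
  have hgood := h.inj hyW (hf.mem i hi) (hf.orth i j hij)
  set kk : ℕ := (n - 1 - j) * Module.finrank ℝ K with hkk
  have hdim : Module.finrank ℝ ({l : Fin n // j < l} → K) = kk := by
    rw [Module.finrank_pi_fintype, Finset.sum_const, Finset.card_univ, card_gt, smul_eq_mul]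
  let B : (Fin kk → ℝ) ≃L[ℝ] ({l : Fin n // j < l} → K) :=
    ContinuousLinearEquiv.ofFinrankEq (by rw [hdim]; simp)
  set V : Submodule ℝ (E m) := (S W f Φ ((j : ℕ) + 1))ᗮ ⊓ S W f Φ j with hV
  have hfin : Module.finrank ℝ (S W f Φ ((j : ℕ) + 1)) + Module.finrank ℝ V =
      Module.finrank ℝ (S W f Φ j) :=
    Submodule.finrank_add_inf_finrank_orthogonal (S_mono hf j hj)
  have hlt : Module.finrank ℝ V < kk := by omega
  let T : V ≃L[ℝ] (Fin (Module.finrank ℝ V) → ℝ) :=
    ContinuousLinearEquiv.ofFinrankEq (by simp)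
  have hzB : Tendsto (fun u : Fin kk → ℝ => z f j (B u)) (𝓝 0) (𝓝 y) := by
    have h1 := ((z_cont (f := f) j).comp B.continuous).tendsto 0
    simp only [Function.comp_def, map_zero, z_zero] at h1
    exact h1
  obtain ⟨ρ, hρ, hball⟩ := Metric.eventually_nhds_iff_ball.1 (hzB.eventually hgood)
  have hsc : ∀ (r : ℕ) (u : Fin kk → ℝ), u ∈ Q kk → ((ρ / 2) / ((r : ℝ) + 1)) • u ∈ ball 0 ρ := by
    intro r u hu
    rw [mem_ball_zero_iff, norm_smul, Real.norm_eq_abs, abs_of_pos (by positivity)]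
    have h1 : ‖u‖ ≤ 1 := by
      rw [pi_norm_le_iff_of_nonneg zero_le_one]
      intro i
      rw [Real.norm_eq_abs, abs_le]
      exact hu i
    have h2 : (ρ / 2) / ((r : ℝ) + 1) ≤ ρ / 2 := div_le_self (by positivity) (by linarith [(Nat.cast_nonneg r : (0 : ℝ) ≤ r)])
    calc (ρ / 2) / ((r : ℝ) + 1) * ‖u‖ ≤ (ρ / 2) * 1 :=
          mul_le_mul h2 h1 (norm_nonneg _) (by positivity)
      _ < ρ := by linarith
  -- for every scale there is a failure of injectivity
  have hfail : ∀ r : ℕ, ∃ u ∈ Q kk, ∃ u' ∈ Q kk, u ≠ u' ∧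
      V.orthogonalProjectionOnto (Φ (z f j (B (((ρ / 2) / ((r : ℝ) + 1)) • u)))) =
      V.orthogonalProjectionOnto (Φ (z f j (B (((ρ / 2) / ((r : ℝ) + 1)) • u')))) := by
    intro r
    by_contra hno
    push Not at hno
    apply no_inj hlt
      (fun u => T (V.orthogonalProjectionOnto (Φ (z f j (B (((ρ / 2) / ((r : ℝ) + 1)) • u))))))
    · apply T.continuous.comp_continuousOn
      apply (V.orthogonalProjectionOnto).continuous.comp_continuousOn
      have hz : Continuous (fun u : Fin kk → ℝ => z f j (B (((ρ / 2) / ((r : ℝ) + 1)) • u))) :=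
        (z_cont j).comp (B.continuous.comp (continuous_const_smul _))
      exact h.cont.comp hz.continuousOn (fun u hu => (hball _ (hsc r u hu)).1)
    · intro u hu u' hu' huu
      by_contra hne
      exact hno u hu u' hu' hne (T.injective huu)
  choose u hu u' hu' hne hproj using hfail
  set a : ℕ → Fin n → K := fun r => z f j (B (((ρ / 2) / ((r : ℝ) + 1)) • u r)) with ha
  set b : ℕ → Fin n → K := fun r => z f j (B (((ρ / 2) / ((r : ℝ) + 1)) • u' r)) with hb
  have ha0 : ∀ r, a r ∈ W := fun r => (hball _ (hsc r _ (hu r))).1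
  have hb0 : ∀ r, b r ∈ W := fun r => (hball _ (hsc r _ (hu' r))).1
  have hlim : ∀ (v : ℕ → Fin kk → ℝ), (∀ r, v r ∈ Q kk) →
      Tendsto (fun r : ℕ => z f j (B (((ρ / 2) / ((r : ℝ) + 1)) • v r))) atTop (𝓝 y) := by
    intro v hv
    have h0 : Tendsto (fun r : ℕ => (ρ / 2) / ((r : ℝ) + 1)) atTop (𝓝 0) := by
      have := (tendsto_one_div_add_atTop_nhds_zero_nat (𝕜 := ℝ)).const_mul (ρ / 2)
      rw [mul_zero] at this
      refine this.congr fun r => ?_
      rw [mul_one_div]
    have h1 : Tendsto (fun r : ℕ => ((ρ / 2) / (((r : ℕ) : ℝ) + 1)) • v r) atTop (𝓝 0) := by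
      apply squeeze_zero_norm (a := fun r : ℕ => (ρ / 2) / ((r : ℝ) + 1)) _ h0
      intro r
      rw [norm_smul, Real.norm_eq_abs, abs_of_pos (by positivity)]
      have : ‖v r‖ ≤ 1 := by
        rw [pi_norm_le_iff_of_nonneg zero_le_one]
        intro i
        rw [Real.norm_eq_abs, abs_le]
        exact hv r i
      calc (ρ / 2) / ((r : ℝ) + 1) * ‖v r‖ ≤ (ρ / 2) / ((r : ℝ) + 1) * 1 :=
            mul_le_mul_of_nonneg_left this (by positivity)
        _ = (ρ / 2) / ((r : ℝ) + 1) := mul_one _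
    exact hzB.comp h1
  have hat : Tendsto a atTop (𝓝 y) := hlim u hu
  have hbt : Tendsto b atTop (𝓝 y) := hlim u' hu'
  have hδ0 : ∀ r, Φ (a r) - Φ (b r) ≠ 0 := by
    intro r h0
    obtain ⟨c, hc⟩ := (hball _ (hsc r _ (hu r))).2 (b r) (hb0 r) (sub_eq_zero.1 h0)
    have h1 := z_inj hf j hc
    have h2 := B.injective h1
    have hr : ((ρ / 2) / ((r : ℝ) + 1)) ≠ 0 := by positivity
    exact hne r (smul_right_injective _ hr h2)
  have hδS : ∀ r, Φ (a r) - Φ (b r) ∈ S W f Φ ((j : ℕ) + 1) := by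
    intro r
    have hS : Φ (a r) - Φ (b r) ∈ S W f Φ j :=
      Submodule.subset_span ⟨a r, z_mem hf j _ (ha0 r), b r, z_mem hf j _ (hb0 r), rfl⟩
    have h0 : V.orthogonalProjectionOnto (Φ (a r) - Φ (b r)) = 0 := by
      rw [map_sub, sub_eq_zero]; exact hproj r
    have hVorth : Φ (a r) - Φ (b r) ∈ Vᗮ := V.orthogonalProjectionOnto_eq_zero_iff.1 h0
    -- decompose
    obtain ⟨p, hp, q, hq, hpq⟩ :=
      (S W f Φ ((j : ℕ) + 1)).exists_add_mem_mem_orthogonal (Φ (a r) - Φ (b r))
    have hqS : q ∈ S W f Φ j := by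
      have : q = (Φ (a r) - Φ (b r)) - p := by rw [hpq]; abel
      rw [this]
      exact sub_mem hS (S_mono hf j hj hp)
    have hqV : q ∈ V := ⟨hq, hqS⟩
    have h1 : inner ℝ q (Φ (a r) - Φ (b r)) = 0 := hVorth q hqV
    have h2 : inner ℝ p q = 0 := hq p hp
    have h3 : inner ℝ q q = 0 := by
      rw [hpq, inner_add_right, real_inner_comm, h2, zero_add] at h1
      exact h1
    have hq0 : q = 0 := inner_self_eq_zero.1 h3
    rw [hpq, hq0, add_zero]
    exact hp
  -- unit secants
  have hunit : ∀ r, ‖Φ (a r) - Φ (b r)‖⁻¹ • (Φ (a r) - Φ (b r)) ∈ sphere (0 : E m) 1 := by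
    intro r
    rw [mem_sphere_zero_iff_norm, norm_smul, norm_inv, norm_norm]
    exact inv_mul_cancel₀ (norm_ne_zero_iff.2 (hδ0 r))
  obtain ⟨v, hv, φ, hφ, hvt⟩ := (isCompact_sphere (0 : E m) 1).tendsto_subseq hunit
  have hvS : v ∈ S W f Φ ((j : ℕ) + 1) := by
    have hcl : IsClosed ((S W f Φ ((j : ℕ) + 1) : Submodule ℝ (E m)) : Set (E m)) :=
      Submodule.closed_of_finiteDimensional _
    apply hcl.mem_of_tendsto hvt
    exact Eventually.of_forall (fun r => Submodule.smul_mem _ _ (hδS (φ r)))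
  have hkey : ∀ x : Fin n → K, x ∈ W → herm x y = 0 → inner ℝ (Φ x - Φ y) v = 0 := by
    intro x hx hxy
    exact h.secant_eq hyW (a := a ∘ φ) (b := b ∘ φ) (fun r => ha0 _) (fun r => hb0 _)
      (hat.comp hφ.tendsto_atTop) (hbt.comp hφ.tendsto_atTop) hvt hx hxy
  have hkey2 : ∀ x ∈ P W f ((j : ℕ) + 1), inner ℝ (Φ x - Φ y) v = 0 := by
    intro x hx
    rcases (P_succ hf j hj hx).2 with h1 | h1
    · rw [h1, ← hy, sub_self, inner_zero_left]
    · exact hkey x (P_W hf (by omega) hx) h1
  have horth : v ∈ (S W f Φ ((j : ℕ) + 1))ᗮ := by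
    rw [Submodule.mem_orthogonal]
    intro w hw
    induction hw using Submodule.span_induction with
    | mem w hw =>
      obtain ⟨x, hx, x', hx', rfl⟩ := hw
      have : Φ x - Φ x' = (Φ x - Φ y) - (Φ x' - Φ y) := by abel
      rw [this, inner_sub_left, hkey2 x hx, hkey2 x' hx', sub_zero]
    | zero => exact inner_zero_left _
    | add w w' _ _ h1 h2 => rw [inner_add_left, h1, h2, add_zero]
    | smul c w _ h1 => rw [inner_smul_left, h1, mul_zero]
  have hvv : inner ℝ v v = 0 := horth v hvS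
  have hv0 : v = 0 := inner_self_eq_zero.1 hvv
  rw [hv0, mem_sphere_zero_iff_norm, norm_zero] at hv
  exact zero_ne_one hv

theorem D_nonneg (h : IsDiam W Φ D) (hf : Frame W k f) (hk : 2 ≤ k) (hkn : k ≤ n) : 0 < D := by
  set x : Fin n → K := f ⟨0, by omega⟩ with hx
  set y : Fin n → K := f ⟨1, by omega⟩ with hy
  have hxW : x ∈ W := hf.mem _ (by simp; omega)
  have hyW : y ∈ W := hf.mem _ (by simp; omega)
  have hxy : herm x y = 0 := hf.orth _ _ (by simp)
  have h1 := (h.iff x hxW y hyW).2 hxy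
  have h2 : Φ x ≠ Φ y := by
    intro heq
    rw [heq, sub_self, norm_zero] at h1
    have h3 := (h.iff x hxW x hxW).1 (by rw [sub_self, norm_zero]; exact h1)
    exact herm_self_ne (h.ne x hxW) h3
  rw [← h1]
  exact norm_pos_iff.2 (sub_ne_zero.2 h2)

/-- the simplex part -/
theorem base (h : IsDiam W Φ D) (hf : Frame W k f) (hk : 2 ≤ k) (hkn : k ≤ n) :
    k - 1 ≤ Module.finrank ℝ (S W f Φ k) := by
  classical
  have hD := D_nonneg h hf hk hkn
  have hmem : ∀ i : Fin k, f ⟨i, by omega⟩ ∈ P W f k := fun i => Or.inl ⟨_, i.2, rfl⟩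
  have hW : ∀ i : Fin k, f ⟨i, by omega⟩ ∈ W := fun i => hf.mem _ i.2
  set i₀ : Fin k := ⟨0, by omega⟩ with hi₀
  set w : Fin (k - 1) → E m := fun i => Φ (f ⟨(i : ℕ) + 1, by omega⟩) - Φ (f ⟨i₀, by omega⟩) with hw
  have hself : ∀ i, inner ℝ (w i) (w i) = D ^ 2 := by
    intro i
    rw [real_inner_self_eq_norm_sq]
    congr 1
    apply (h.iff _ (hW ⟨(i : ℕ) + 1, by omega⟩) _ (hW i₀)).2
    apply hf.orth
    intro h'
    have := congrArg Fin.val h'
    simp [hi₀] at this
  have hcross : ∀ i l, i ≠ l → inner ℝ (w i) (w l) = D ^ 2 / 2 := by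
    intro i l hil
    have h1 : ‖w i - w l‖ ^ 2 = D ^ 2 := by
      congr 1
      have : w i - w l = Φ (f ⟨(i : ℕ) + 1, by omega⟩) - Φ (f ⟨(l : ℕ) + 1, by omega⟩) := by
        simp only [hw]; abel
      rw [this]
      apply (h.iff _ (hW ⟨(i : ℕ) + 1, by omega⟩) _ (hW ⟨(l : ℕ) + 1, by omega⟩)).2
      apply hf.orth
      intro h'
      have := congrArg Fin.val h'
      simp at this
      exact hil (Fin.ext this)
    rw [norm_sub_sq_real, ← real_inner_self_eq_norm_sq, ← real_inner_self_eq_norm_sq, hself,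
      hself] at h1
    linarith
  have hli : LinearIndependent ℝ w := by
    rw [Fintype.linearIndependent_iff]
    intro g hg
    have h1 : ∀ l, g l = - ∑ i, g i := by
      intro l
      have h2 : inner ℝ (∑ i, g i • w i) (w l) = 0 := by rw [hg, inner_zero_left]
      rw [sum_inner] at h2
      have h3 : ∀ i, inner ℝ (g i • w i) (w l) = D ^ 2 / 2 * g i +
          (if i = l then D ^ 2 / 2 * g l else 0) := by
        intro i
        rw [inner_smul_left]
        by_cases hil : i = l
        · subst hil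
          rw [hself, if_pos rfl]
          simp only [conj_trivial]
          ring
        · rw [hcross i l hil, if_neg hil]
          simp only [conj_trivial]
          ring
      simp only [h3] at h2
      rw [Finset.sum_add_distrib, Finset.sum_ite_eq' Finset.univ l, if_pos (Finset.mem_univ l),
        ← Finset.mul_sum, ← mul_add] at h2
      have h4 : D ^ 2 / 2 ≠ 0 := by positivity
      have h5 := (mul_eq_zero.1 h2).resolve_left h4
      linarith
    have h6 : ∑ i, g i = 0 := by
      have h7 : ∑ i, g i = ∑ _i : Fin (k - 1), (- ∑ i, g i) := Finset.sum_congr rfl (fun l _ => h1 l)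
      rw [Finset.sum_const, Finset.card_univ, Fintype.card_fin, nsmul_eq_mul] at h7
      have h8 : (1 + ((k - 1 : ℕ) : ℝ)) * ∑ i, g i = 0 := by linarith
      have h9 : (1 + ((k - 1 : ℕ) : ℝ)) ≠ 0 := by positivity
      exact (mul_eq_zero.1 h8).resolve_left h9
    intro l
    rw [h1 l, h6, neg_zero]
  have hsub : Submodule.span ℝ (Set.range w) ≤ S W f Φ k := by
    rw [Submodule.span_le]
    rintro _ ⟨i, rfl⟩
    exact Submodule.subset_span ⟨_, hmem ⟨(i : ℕ) + 1, by omega⟩, _, hmem i₀, rfl⟩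
  have hcard := finrank_span_eq_card hli
  rw [Fintype.card_fin] at hcard
  rw [← hcard]
  exact Submodule.finrank_mono hsub

/-- **The lower bound.** -/
theorem lower [FiniteDimensional ℝ K] (h : IsDiam W Φ D) (hf : Frame W k f) (hk : 2 ≤ k)
    (hkn : k ≤ n) :
    k - 1 + (∑ j ∈ Finset.range k, (n - 1 - j)) * Module.finrank ℝ K ≤ m := by
  have hind : ∀ i : ℕ, i ≤ k →
      k - 1 + (∑ j ∈ Finset.Ico (k - i) k, (n - 1 - j)) * Module.finrank ℝ K ≤
        Module.finrank ℝ (S W f Φ (k - i)) := by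
    intro i
    induction i with
    | zero =>
      intro _
      have := base h hf hk hkn
      simpa using this
    | succ i ih =>
      intro hi
      have h1 := ih (by omega)
      have h2 := step h hf hk hkn ⟨k - (i + 1), by omega⟩ (by simp; omega)
      simp only at h2
      have h3 : k - (i + 1) + 1 = k - i := by omega
      rw [h3] at h2
      rw [Finset.sum_eq_sum_Ico_succ_bot (by omega : k - (i + 1) < k), h3, add_mul]
      omega
  have h1 := hind k le_rfl
  rw [Nat.sub_self, ← Finset.range_eq_Ico] at h1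
  have h2 : Module.finrank ℝ (S W f Φ 0) ≤ m := by
    have := Submodule.finrank_le (S W f Φ 0)
    simpa using this
  omega

/-- Orthogonal systems can be completed. -/
theorem exists_orth {k : ℕ} (hk : k < n) (g : Fin k → Fin n → K) :
    ∃ x : Fin n → K, x ≠ 0 ∧ ∀ i, herm x (g i) = 0 := by
  let F : (Fin n → K) →ₗ[K] (Fin k → K) :=
    { toFun := fun x i => herm x (g i)
      map_add' := fun x y => by funext i; exact herm_add_left x y (g i)
      map_smul' := fun c x => by funext i; exact herm_smul_left c x (g i) }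
  have hker : LinearMap.ker F ≠ ⊥ := by
    apply LinearMap.ker_ne_bot_of_finrank_lt
    rw [Module.finrank_fin_fun, Module.finrank_fin_fun]
    exact hk
  obtain ⟨x, hx, hx0⟩ := (Submodule.ne_bot_iff _).1 hker
  exact ⟨x, hx0, fun i => congrFun (LinearMap.mem_ker.1 hx) i⟩

theorem exists_frame (k : ℕ) (hk : k ≤ n) (g : Fin k → Fin n → K) (hg0 : ∀ i, g i ≠ 0)
    (hg : ∀ i l, i ≠ l → herm (g i) (g l) = 0) (hgW : ∀ i, g i ∈ W) :
    ∃ f : Fin n → Fin n → K, Frame W k f := by
  suffices H : ∀ j, k ≤ j → j ≤ n → ∃ f : Fin j → Fin n → K, (∀ i, f i ≠ 0) ∧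
      (∀ i l, i ≠ l → herm (f i) (f l) = 0) ∧ ∀ i : Fin j, (i : ℕ) < k → f i ∈ W by
    obtain ⟨f, h1, h2, h3⟩ := H n hk le_rfl
    exact ⟨f, h1, h2, h3⟩
  intro j hkj
  induction j, hkj using Nat.le_induction with
  | base => exact fun _ => ⟨g, hg0, hg, fun i _ => hgW i⟩
  | succ j hkj ih =>
    intro hjn
    obtain ⟨f, h1, h2, h3⟩ := ih (by omega)
    obtain ⟨x, hx0, hx⟩ := exists_orth (by omega : j < n) f
    refine ⟨Fin.snoc (α := fun _ => Fin n → K) f x, ?_, ?_, ?_⟩
    · intro i
      refine Fin.lastCases ?_ (fun i => ?_) i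
      · rw [Fin.snoc_last]; exact hx0
      · rw [Fin.snoc_castSucc]; exact h1 i
    · intro i l
      refine Fin.lastCases ?_ (fun i => ?_) i
      · refine Fin.lastCases ?_ (fun l => ?_) l
        · intro h; exact absurd rfl h
        · intro _
          rw [Fin.snoc_last, Fin.snoc_castSucc]; exact hx l
      · refine Fin.lastCases ?_ (fun l => ?_) l
        · intro _
          rw [Fin.snoc_last, Fin.snoc_castSucc, herm_comm_zero]; exact hx i
        · intro h
          rw [Fin.snoc_castSucc, Fin.snoc_castSucc]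
          exact h2 i l (fun h' => h (by rw [h']))
    · intro i
      refine Fin.lastCases ?_ (fun i => ?_) i
      · intro h
        simp at h
        omega
      · intro h
        rw [Fin.snoc_castSucc]
        exact h3 i (by simpa using h)

end Pool.Agent.KS6_53.El
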