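import Pool.Agent.KS6_53.El.E1

set_option autoImplicit false
set_option linter.unusedSectionVars false

open Set Filter Topology Metric

namespace Pool.Agent.KS6_53.El

section

variable {K : Type} [NormedDivisionRing K] [NormedAlgebra ℝ K] [StarRing K] [Conj K]

theorem par_law (x y : K) :
    ‖x + y‖ * ‖x + y‖ + ‖x - y‖ * ‖x - y‖ = 2 * (‖x‖ * ‖x‖ + ‖y‖ * ‖y‖) := by
  apply FaithfulSMul.algebraMap_injective ℝ K
  have h : ∀ a : K, algebraMap ℝ K (‖a‖ * ‖a‖) = a * star a := fun a => by
    rw [Conj.mul_star, sq]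
  rw [map_add, h, h, map_mul, map_add, h, h, star_add, star_sub]
  have h2 : algebraMap ℝ K 2 = 2 := map_ofNat (algebraMap ℝ K) 2
  rw [h2]
  noncomm_ring

/-- The inner product on `K`. -/
@[reducible] noncomputable def ips (K : Type) [NormedDivisionRing K] [NormedAlgebra ℝ K] [StarRing K]
    [Conj K] : InnerProductSpace ℝ K := InnerProductSpace.ofNorm ℝ par_law

attribute [local instance] ips

/-- The real part. -/
noncomputable def re (a : K) : ℝ := inner ℝ (1 : K) a

theorem two_inner (a b : K) : algebraMap ℝ K (2 * inner ℝ a b) = a * star b + b * star a := by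
  have h1 : 2 * inner ℝ a b = ‖a + b‖ ^ 2 - ‖a‖ ^ 2 - ‖b‖ ^ 2 := by
    rw [norm_add_sq_real]; ring
  rw [h1, map_sub, map_sub, ← Conj.mul_star, ← Conj.mul_star, ← Conj.mul_star, star_add]
  noncomm_ring

theorem two_inner' (a b : K) : algebraMap ℝ K (2 * inner ℝ a b) = star a * b + star b * a := by
  have h1 : 2 * inner ℝ a b = ‖a + b‖ ^ 2 - ‖a‖ ^ 2 - ‖b‖ ^ 2 := by
    rw [norm_add_sq_real]; ring
  rw [h1, map_sub, map_sub, ← star_mul_self'', ← star_mul_self'', ← star_mul_self'', star_add]
  noncomm_ring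

theorem two_re (a : K) : algebraMap ℝ K (2 * re a) = a + star a := by
  rw [re, two_inner, star_one, one_mul, mul_one, add_comm]

theorem inner_eq_re (a b : K) : inner ℝ a b = re (a * star b) := by
  have h : algebraMap ℝ K (2 * inner ℝ a b) = algebraMap ℝ K (2 * re (a * star b)) := by
    rw [two_inner, two_re, StarMul.star_mul, star_star]
  have := FaithfulSMul.algebraMap_injective ℝ K h
  linarith

theorem inner_eq_re' (a b : K) : inner ℝ a b = re (star a * b) := by
  have h : algebraMap ℝ K (2 * inner ℝ a b) = algebraMap ℝ K (2 * re (star a * b)) := by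
    rw [two_inner', two_re, StarMul.star_mul, star_star]
  have := FaithfulSMul.algebraMap_injective ℝ K h
  linarith

theorem re_star (a : K) : re (star a) = re a := by
  have h : algebraMap ℝ K (2 * re (star a)) = algebraMap ℝ K (2 * re a) := by
    rw [two_re, two_re, star_star, add_comm]
  have := FaithfulSMul.algebraMap_injective ℝ K h
  linarith

theorem re_comm (a b : K) : re (a * b) = re (b * a) := by
  have h1 : re (a * b) = inner ℝ a (star b) := by rw [inner_eq_re, star_star]
  rw [h1, inner_eq_re', ← StarMul.star_mul, re_star]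

theorem re_add (a b : K) : re (a + b) = re a + re b := by rw [re, inner_add_right]; rfl

theorem re_smul (r : ℝ) (a : K) : re (r • a) = r * re a := by rw [re, inner_smul_right]; rfl

theorem re_sum {ι : Type} (s : Finset ι) (g : ι → K) : re (∑ i ∈ s, g i) = ∑ i ∈ s, re (g i) := by
  show inner ℝ (1 : K) _ = _
  rw [inner_sum]
  rfl

theorem re_real (r : ℝ) : re (algebraMap ℝ K r) = r := by
  rw [Algebra.algebraMap_eq_smul_one, re_smul, re, real_inner_self_eq_norm_sq, norm_one]
  ring

theorem self_adj {a : K} (h : star a = a) : a = algebraMap ℝ K (re a) := by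
  have h1 := two_re a
  rw [h, ← two_mul, map_mul] at h1
  have h2 : algebraMap ℝ K 2 = 2 := map_ofNat (algebraMap ℝ K) 2
  rw [h2] at h1
  have h3 : (2 : K) ≠ 0 := by
    rw [← h2, Ne, FaithfulSMul.algebraMap_eq_zero_iff]
    norm_num
  exact (mul_left_cancel₀ h3 h1).symm

variable {n : ℕ}

/-- The ambient space. -/
abbrev Amb (K : Type) (n : ℕ) [NormedDivisionRing K] : Type := PiLp 2 (fun _ : Fin n × Fin n => K)

/-- The projection on the line of `x`. -/
noncomputable def T (x : Fin n → K) : Amb K n :=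
  WithLp.toLp 2 (fun p => (N x)⁻¹ • (star (x p.1) * x p.2))

theorem T_smul (c : K) (hc : c ≠ 0) (x : Fin n → K) : T (c • x) = T x := by
  have hN : N (c • x) = ‖c‖ ^ 2 * N x := by
    simp only [N, Pi.smul_apply, smul_eq_mul, norm_mul, mul_pow, Finset.mul_sum]
  have hc' : ‖c‖ ^ 2 ≠ 0 := by positivity
  unfold T
  congr 1
  funext p
  simp only [Pi.smul_apply, smul_eq_mul, StarMul.star_mul]
  have key : star (x p.1) * star c * (c * x p.2) = (‖c‖ ^ 2) • (star (x p.1) * x p.2) := by
    rw [mul_assoc, ← mul_assoc (star c), star_mul_self'', ← mul_assoc,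
      ← Algebra.commutes (‖c‖ ^ 2) (star (x p.1)), Algebra.smul_def, mul_assoc]
  rw [key, smul_smul, hN, mul_inv, mul_comm (‖c‖ ^ 2)⁻¹, mul_assoc, inv_mul_cancel₀ hc', mul_one]

theorem inner_T {x y : Fin n → K} :
    inner ℝ (T x) (T y) = ‖herm x y‖ ^ 2 / (N x * N y) := by
  rw [PiLp.inner_apply]
  have h1 : ∀ p : Fin n × Fin n, inner ℝ (T x p) (T y p) =
      (N x)⁻¹ * (N y)⁻¹ * re ((x p.2 * star (y p.2)) * (y p.1 * star (x p.1))) := by
    intro p
    simp only [T]
    rw [inner_smul_left, inner_smul_right, inner_eq_re, StarMul.star_mul, star_star, mul_assoc, re_comm]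
    simp only [conj_trivial]
    rw [mul_assoc (N x)⁻¹]
    congr 3
    simp only [mul_assoc]
  simp only [h1]
  rw [← Finset.mul_sum, ← re_sum, Fintype.sum_prod_type_right]
  have h2 : ∑ j, ∑ i, (x j * star (y j)) * (y i * star (x i)) = herm x y * herm y x := by
    simp only [herm, Finset.sum_mul_sum]
  simp only at h2 ⊢
  rw [h2, ← herm_star x y, Conj.mul_star, re_real]
  rw [div_eq_mul_inv, mul_inv]
  ring

theorem norm_T_sub {x y : Fin n → K} (hx : x ≠ 0) (hy : y ≠ 0) :
    ‖T x - T y‖ ^ 2 = 2 - 2 * (‖herm x y‖ ^ 2 / (N x * N y)) := by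
  rw [norm_sub_sq_real, ← real_inner_self_eq_norm_sq (T x), ← real_inner_self_eq_norm_sq (T y),
    inner_T, inner_T, inner_T, herm_self, herm_self, norm_algebraMap', norm_algebraMap']
  have h1 := N_pos hx
  have h2 := N_pos hy
  have e1 : N x ^ 2 / (N x * N x) = 1 := by rw [sq]; exact div_self (by positivity)
  have e2 : N y ^ 2 / (N y * N y) = 1 := by rw [sq]; exact div_self (by positivity)
  rw [Real.norm_eq_abs, Real.norm_eq_abs, sq_abs, sq_abs, e1, e2]
  ring

/-- Hermitian matrices of trace `0`. -/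
def Herm0 (K : Type) (n : ℕ) [NormedDivisionRing K] [NormedAlgebra ℝ K] [StarRing K] [Conj K] :
    Submodule ℝ (Amb K n) where
  carrier := {A | (∀ i j, A (j, i) = star (A (i, j))) ∧ ∑ i, A (i, i) = 0}
  add_mem' := by
    rintro A B ⟨hA, hA'⟩ ⟨hB, hB'⟩
    refine ⟨fun i j => ?_, ?_⟩
    · simp only [PiLp.add_apply, star_add]
      rw [hA i j, hB i j]
    · simp only [PiLp.add_apply, Finset.sum_add_distrib, hA', hB', add_zero]
  zero_mem' := ⟨fun i j => by simp, by simp⟩
  smul_mem' := by
    rintro c A ⟨hA, hA'⟩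
    refine ⟨fun i j => ?_, ?_⟩
    · simp only [PiLp.smul_apply, star_rsmul]
      rw [hA i j]
    · simp only [PiLp.smul_apply, ← Finset.smul_sum, hA', smul_zero]

theorem T_mem {x y : Fin n → K} (hx : x ≠ 0) (hy : y ≠ 0) : T x - T y ∈ Herm0 K n := by
  constructor
  · intro i j
    simp only [T, PiLp.sub_apply, star_sub, star_rsmul, StarMul.star_mul, star_star]
  · have e1 : ∀ z : Fin n → K, z ≠ 0 → ∑ i, (N z)⁻¹ • (star (z i) * z i) = 1 := by
      intro z hz
      rw [← Finset.smul_sum]
      simp only [star_mul_self'']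
      rw [← map_sum, Algebra.smul_def, ← map_mul]
      have : ∑ i, ‖z i‖ ^ 2 = N z := rfl
      rw [this, inv_mul_cancel₀ (N_pos hz).ne', map_one]
    simp only [T, PiLp.sub_apply, Finset.sum_sub_distrib]
    rw [e1 x hx, e1 y hy, sub_self]

theorem finrank_Herm0 [FiniteDimensional ℝ K] (hn : 1 ≤ n) :
    Module.finrank ℝ (Herm0 K n) ≤
      n - 1 + (∑ j ∈ Finset.range n, (n - 1 - j)) * Module.finrank ℝ K := by
  let F : Amb K n →ₗ[ℝ] (((j : Fin n) × {l : Fin n // j < l}) → K) × (Fin (n - 1) → ℝ) :=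
    { toFun := fun A => (fun p => A (p.1, p.2.1), fun i => re (A (⟨i, by omega⟩, ⟨i, by omega⟩)))
      map_add' := by
        intro A B
        refine Prod.ext ?_ ?_
        · rfl
        · funext i; exact re_add _ _
      map_smul' := by
        intro c A
        refine Prod.ext ?_ ?_
        · rfl
        · funext i; exact re_smul _ _ }
  have hinj : Function.Injective (F.comp (Herm0 K n).subtype) := by
    rw [← LinearMap.ker_eq_bot, LinearMap.ker_eq_bot']
    rintro ⟨A, hA, hA'⟩ h
    apply Subtype.ext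
    show A = 0
    have h1 : ∀ i j : Fin n, i < j → A (i, j) = 0 := fun i j hij =>
      congrFun (congrArg Prod.fst h) ⟨i, ⟨j, hij⟩⟩
    have h2 : ∀ i : Fin (n - 1), re (A (⟨i, by omega⟩, ⟨i, by omega⟩)) = 0 := fun i =>
      congrFun (congrArg Prod.snd h) i
    have h3 : ∀ i : Fin n, (i : ℕ) < n - 1 → A (i, i) = 0 := by
      intro i hi
      rw [self_adj (hA i i).symm]
      have := h2 ⟨i, hi⟩
      simp only [Fin.eta] at this
      rw [this, map_zero]
    have h4 : A (⟨n - 1, by omega⟩, ⟨n - 1, by omega⟩) = 0 := by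
      rw [Finset.sum_eq_single (⟨n - 1, by omega⟩ : Fin n)] at hA'
      · exact hA'
      · intro i _ hi
        apply h3
        have : (i : ℕ) ≠ n - 1 := fun h' => hi (Fin.ext h')
        omega
      · intro h'
        exact absurd (Finset.mem_univ _) h'
    ext ⟨i, j⟩
    show A (i, j) = 0
    rcases lt_trichotomy i j with hij | hij | hij
    · exact h1 i j hij
    · subst hij
      by_cases hi : (i : ℕ) < n - 1
      · exact h3 i hi
      · have : i = ⟨n - 1, by omega⟩ := Fin.ext (by simp; omega)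
        rw [this]; exact h4
    · rw [hA j i, h1 j i hij, star_zero]
  have h1 := LinearMap.finrank_le_finrank_of_injective hinj
  rw [Module.finrank_prod, Module.finrank_pi_fintype, Finset.sum_const, Finset.card_univ,
    Fintype.card_sigma, Module.finrank_fin_fun, smul_eq_mul] at h1
  have h2 : ∑ j : Fin n, Fintype.card {l : Fin n // j < l} = ∑ j ∈ Finset.range n, (n - 1 - j) := by
    rw [Finset.sum_range]
    refine Finset.sum_congr rfl fun j _ => ?_
    rw [Fintype.card_subtype, Finset.filter_lt_eq_Ioi, Fin.card_Ioi]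
  rw [h2] at h1
  omega

end

end Pool.Agent.KS6_53.El
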