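import Pool.Agent.KS6_53.El.E3
import Pool.Agent.KS6_53.El.E4

set_option autoImplicit false
set_option linter.unusedSectionVars false

open Set Filter Topology Metric

namespace Pool.Agent.KS6_53.El

open scoped LinearAlgebra.Projectivization

variable {K : Type} [NormedDivisionRing K] [NormedAlgebra ℝ K] [StarRing K]
variable {n m : ℕ}

/-- The distance of elliptic space. -/
noncomputable def ell (p q : ℙ K (Fin n → K)) : ℝ :=
  Real.arccos (‖herm p.rep q.rep‖ / (Real.sqrt (N p.rep) * Real.sqrt (N q.rep)))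

/-- `U` is open. -/
def OpenSet (U : Set (ℙ K (Fin n → K))) : Prop :=
  ∀ p ∈ U, ∃ ε > 0, ∀ q, ell p q < ε → q ∈ U

/-- `φ` is continuous on `U`. -/
def ContOn (U : Set (ℙ K (Fin n → K))) (φ : ℙ K (Fin n → K) → EuclideanSpace ℝ (Fin m)) : Prop :=
  ∀ p ∈ U, ∀ ε > 0, ∃ δ > 0, ∀ q ∈ U, ell p q < δ → dist (φ p) (φ q) < ε

/-- `φ` preserves the set of diameters of `U`. -/
def Preserves (U : Set (ℙ K (Fin n → K))) (φ : ℙ K (Fin n → K) → EuclideanSpace ℝ (Fin m)) :
    Prop :=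
  Bornology.IsBounded (φ '' U) ∧
    ∀ p ∈ U, ∀ q ∈ U, (dist (φ p) (φ q) = Metric.diam (φ '' U) ↔ ell p q = Real.pi / 2)

variable [Conj K]

theorem N_smul (c : K) (x : Fin n → K) : N (c • x) = ‖c‖ ^ 2 * N x := by
  simp only [N, Pi.smul_apply, smul_eq_mul, norm_mul, mul_pow, Finset.mul_sum]

theorem ell_mk {x y : Fin n → K} (hx : x ≠ 0) (hy : y ≠ 0) :
    ell (Projectivization.mk K x hx) (Projectivization.mk K y hy) =
      Real.arccos (‖herm x y‖ / (Real.sqrt (N x) * Real.sqrt (N y))) := by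
  obtain ⟨a, ha⟩ := Projectivization.exists_smul_eq_mk_rep K x hx
  obtain ⟨b, hb⟩ := Projectivization.exists_smul_eq_mk_rep K y hy
  have ha' : (Projectivization.mk K x hx).rep = (a : K) • x := ha.symm
  have hb' : (Projectivization.mk K y hy).rep = (b : K) • y := hb.symm
  rw [ell, ha', hb', herm_smul_left, herm_smul_right, N_smul, N_smul, norm_mul, norm_mul,
    norm_star', Real.sqrt_mul (by positivity), Real.sqrt_mul (by positivity),
    Real.sqrt_sq (norm_nonneg _), Real.sqrt_sq (norm_nonneg _)]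
  have h1 : ‖(a : K)‖ ≠ 0 := norm_ne_zero_iff.2 a.ne_zero
  have h2 : ‖(b : K)‖ ≠ 0 := norm_ne_zero_iff.2 b.ne_zero
  have h3 : Real.sqrt (N x) ≠ 0 := (Real.sqrt_pos.2 (N_pos hx)).ne'
  have h4 : Real.sqrt (N y) ≠ 0 := (Real.sqrt_pos.2 (N_pos hy)).ne'
  congr 1
  field_simp

theorem ell_zero {x y : Fin n → K} (hx : x ≠ 0) (hy : y ≠ 0) :
    ell (Projectivization.mk K x hx) (Projectivization.mk K y hy) = Real.pi / 2 ↔ herm x y = 0 := by
  rw [ell_mk, Real.arccos_eq_pi_div_two, div_eq_zero_iff, norm_eq_zero]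
  have h3 : Real.sqrt (N x) ≠ 0 := (Real.sqrt_pos.2 (N_pos hx)).ne'
  have h4 : Real.sqrt (N y) ≠ 0 := (Real.sqrt_pos.2 (N_pos hy)).ne'
  constructor
  · rintro (h | h)
    · exact h
    · exact absurd h (mul_ne_zero h3 h4)
  · exact fun h => Or.inl h

theorem ell_tendsto {x : Fin n → K} (hx : x ≠ 0) :
    Tendsto (fun y : Fin n → K => Real.arccos (‖herm x y‖ / (Real.sqrt (N x) * Real.sqrt (N y))))
      (𝓝 x) (𝓝 0) := by
  have h1 : Tendsto (fun y : Fin n → K => ‖herm x y‖) (𝓝 x) (𝓝 ‖herm x x‖) :=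
    (continuous_herm.comp (Continuous.prodMk_right x)).norm.tendsto x
  have h2 : Tendsto (fun y : Fin n → K => Real.sqrt (N x) * Real.sqrt (N y)) (𝓝 x)
      (𝓝 (Real.sqrt (N x) * Real.sqrt (N x))) :=
    ((continuous_const.mul (Real.continuous_sqrt.comp continuous_N))).tendsto x
  have hN := N_pos hx
  have h3 : Real.sqrt (N x) * Real.sqrt (N x) = N x := Real.mul_self_sqrt hN.le
  rw [h3] at h2
  have h4 : ‖herm x x‖ = N x := by
    rw [herm_self, norm_algebraMap', Real.norm_eq_abs, abs_of_nonneg hN.le]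
  rw [h4] at h1
  have h5 := h1.div h2 hN.ne'
  rw [div_self hN.ne'] at h5
  have h6 := (Real.continuous_arccos.tendsto 1).comp h5
  rw [Real.arccos_one] at h6
  exact h6

open Classical in
/-- the homogeneous extension of a map of lines -/
noncomputable def Ph (φ : ℙ K (Fin n → K) → E m) (x : Fin n → K) : E m :=
  if hx : x ≠ 0 then φ (Projectivization.mk K x hx) else 0

theorem Ph_eq (φ : ℙ K (Fin n → K) → E m) {x : Fin n → K} (hx : x ≠ 0) :
    Ph φ x = φ (Projectivization.mk K x hx) := by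
  rw [Ph, dif_pos hx]

/-- The cone over `U`. -/
def Wof (U : Set (ℙ K (Fin n → K))) : Set (Fin n → K) :=
  {x | ∃ hx : x ≠ 0, Projectivization.mk K x hx ∈ U}

theorem isDiam {U : Set (ℙ K (Fin n → K))} (hU : OpenSet U)
    {φ : ℙ K (Fin n → K) → EuclideanSpace ℝ (Fin m)} (hc : ContOn U φ) (hd : Preserves U φ) :
    IsDiam (Wof U) (Ph φ) (Metric.diam (φ '' U)) where
  opn := by
    rw [isOpen_iff_eventually]
    rintro x ⟨hx, hxU⟩
    obtain ⟨ε, hε, h⟩ := hU _ hxU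
    filter_upwards [(ell_tendsto hx).eventually (gt_mem_nhds hε), isOpen_ne.mem_nhds hx] with y hy hy0
    exact ⟨hy0, h _ (by rw [ell_mk]; exact hy)⟩
  ne := fun x hx => hx.1
  cont := by
    rintro x ⟨hx, hxU⟩
    rw [ContinuousWithinAt, Metric.tendsto_nhds]
    intro ε hε
    obtain ⟨δ, hδ, h⟩ := hc _ hxU ε hε
    filter_upwards [mem_nhdsWithin_of_mem_nhds ((ell_tendsto hx).eventually (gt_mem_nhds hδ)),
      self_mem_nhdsWithin] with y hy hyW
    obtain ⟨hy0, hyU⟩ := hyW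
    rw [Ph_eq φ hx, Ph_eq φ hy0, dist_comm]
    exact h _ hyU (by rw [ell_mk]; exact hy)
  le := by
    rintro x ⟨hx, hxU⟩ y ⟨hy, hyU⟩
    rw [Ph_eq φ hx, Ph_eq φ hy, ← dist_eq_norm]
    exact dist_le_diam_of_mem hd.1 ⟨_, hxU, rfl⟩ ⟨_, hyU, rfl⟩
  iff := by
    rintro x ⟨hx, hxU⟩ y ⟨hy, hyU⟩
    rw [Ph_eq φ hx, Ph_eq φ hy, ← dist_eq_norm, hd.2 _ hxU _ hyU, ell_zero]

/-- **Lower bound**, for an open set with `k` pairwise orthogonal points. -/
theorem lower_proj [FiniteDimensional ℝ K] {k : ℕ} (hk : 2 ≤ k) (hkn : k ≤ n)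
    {U : Set (ℙ K (Fin n → K))} (hU : OpenSet U) (g : Fin k → ℙ K (Fin n → K)) (hg : ∀ i, g i ∈ U)
    (hgo : ∀ i l, i ≠ l → ell (g i) (g l) = Real.pi / 2)
    {φ : ℙ K (Fin n → K) → EuclideanSpace ℝ (Fin m)} (hc : ContOn U φ) (hd : Preserves U φ) :
    k - 1 + (∑ j ∈ Finset.range k, (n - 1 - j)) * Module.finrank ℝ K ≤ m := by
  have h := isDiam hU hc hd
  have hmk : ∀ p : ℙ K (Fin n → K), Projectivization.mk K p.rep p.rep_nonzero = p :=
    fun p => p.mk_rep
  obtain ⟨f, hf⟩ := exists_frame (W := Wof U) k hkn (fun i => (g i).rep) (fun i => (g i).rep_nonzero)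
    (fun i l hil => by
      rw [← ell_zero (g i).rep_nonzero (g l).rep_nonzero, hmk, hmk]
      exact hgo i l hil)
    (fun i => ⟨(g i).rep_nonzero, by rw [hmk]; exact hg i⟩)
  exact lower h hf hk hkn

theorem dist_T (p q : ℙ K (Fin n → K)) :
    ‖T p.rep - T q.rep‖ ^ 2 = 2 - 2 * Real.cos (ell p q) ^ 2 := by
  have h := norm_T_sub p.rep_nonzero q.rep_nonzero
  have h1 := N_pos p.rep_nonzero
  have h2 := N_pos q.rep_nonzero
  set t := ‖herm p.rep q.rep‖ / (Real.sqrt (N p.rep) * Real.sqrt (N q.rep)) with ht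
  have h3 : ‖herm p.rep q.rep‖ ^ 2 / (N p.rep * N q.rep) = t ^ 2 := by
    rw [ht, div_pow, mul_pow, Real.sq_sqrt h1.le, Real.sq_sqrt h2.le]
  rw [h3] at h
  have h4 : t ^ 2 ≤ 1 := by nlinarith [sq_nonneg ‖T p.rep - T q.rep‖]
  have h5 : 0 ≤ t := by positivity
  have h6 : t ≤ 1 := by nlinarith
  rw [h, ell, ← ht, Real.cos_arccos (by linarith) h6]

theorem ell_nonneg (p q : ℙ K (Fin n → K)) : 0 ≤ ell p q := Real.arccos_nonneg _

theorem ell_le (p q : ℙ K (Fin n → K)) : ell p q ≤ Real.pi / 2 := by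
  rw [ell, Real.arccos_le_pi_div_two]
  positivity

theorem dist_T' (p q : ℙ K (Fin n → K)) : ‖T p.rep - T q.rep‖ = √2 * Real.sin (ell p q) := by
  have h := dist_T p q
  have h2 := Real.sin_sq_add_cos_sq (ell p q)
  have h3 : 0 ≤ Real.sin (ell p q) :=
    Real.sin_nonneg_of_nonneg_of_le_pi (ell_nonneg p q) ((ell_le p q).trans (by linarith [Real.pi_pos]))
  rw [← abs_of_nonneg (norm_nonneg (T p.rep - T q.rep)),
    ← abs_of_nonneg (mul_nonneg (Real.sqrt_nonneg 2) h3)]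
  rw [← sq_eq_sq_iff_abs_eq_abs, h, mul_pow, Real.sq_sqrt (by norm_num)]
  linarith

/-- **The map.** -/
theorem exists_map [FiniteDimensional ℝ K] (p₀ : ℙ K (Fin n → K)) :
    ∃ φ : ℙ K (Fin n → K) → EuclideanSpace ℝ (Fin (Module.finrank ℝ (Herm0 K n))),
      ∀ p q, dist (φ p) (φ q) = √2 * Real.sin (ell p q) := by
  letI := ips K
  let R := (stdOrthonormalBasis ℝ (Herm0 K n)).repr
  refine ⟨fun p => R ⟨T p.rep - T p₀.rep, T_mem p.rep_nonzero p₀.rep_nonzero⟩, fun p q => ?_⟩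
  rw [R.dist_map, dist_eq_norm, ← dist_T', Submodule.coe_norm]
  congr 1
  show T p.rep - T p₀.rep - (T q.rep - T p₀.rep) = _
  abel

theorem map_props {U : Set (ℙ K (Fin n → K))} {p₁ p₂ : ℙ K (Fin n → K)} (h₁ : p₁ ∈ U) (h₂ : p₂ ∈ U)
    (h₁₂ : ell p₁ p₂ = Real.pi / 2)
    (φ : ℙ K (Fin n → K) → EuclideanSpace ℝ (Fin m))
    (hφ : ∀ p q, dist (φ p) (φ q) = √2 * Real.sin (ell p q)) :
    ContOn U φ ∧ Preserves U φ := by
  have hle : ∀ p q, dist (φ p) (φ q) ≤ √2 := fun p q => by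
    rw [hφ]; exact mul_le_of_le_one_right (Real.sqrt_nonneg 2) (Real.sin_le_one _)
  have hb : Bornology.IsBounded (φ '' U) := by
    rw [Metric.isBounded_iff]
    refine ⟨√2, ?_⟩
    rintro _ ⟨p, _, rfl⟩ _ ⟨q, _, rfl⟩
    exact hle p q
  have hdiam : Metric.diam (φ '' U) = √2 := by
    apply le_antisymm
    · apply Metric.diam_le_of_forall_dist_le (Real.sqrt_nonneg 2)
      rintro _ ⟨p, _, rfl⟩ _ ⟨q, _, rfl⟩
      exact hle p q
    · have := dist_le_diam_of_mem hb ⟨p₁, h₁, rfl⟩ ⟨p₂, h₂, rfl⟩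
      rw [hφ, h₁₂, Real.sin_pi_div_two, mul_one] at this
      exact this
  refine ⟨?_, hb, ?_⟩
  · intro p _ ε hε
    refine ⟨ε / √2, by positivity, fun q _ hq => ?_⟩
    rw [hφ]
    have h1 : Real.sin (ell p q) ≤ ell p q := Real.sin_le (ell_nonneg p q)
    calc √2 * Real.sin (ell p q) ≤ √2 * ell p q :=
          mul_le_mul_of_nonneg_left h1 (Real.sqrt_nonneg 2)
      _ < √2 * (ε / √2) := mul_lt_mul_of_pos_left hq (by positivity)
      _ = ε := by field_simp
  · intro p _ q _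
    rw [hφ, hdiam]
    constructor
    · intro h
      have hs : Real.sin (ell p q) = 1 := by
        have : √2 ≠ 0 := by positivity
        have h' : √2 * Real.sin (ell p q) = √2 * 1 := by rw [h, mul_one]
        exact mul_left_cancel₀ this h'
      rw [← Real.sin_pi_div_two] at hs
      apply Real.injOn_sin _ _ hs
      · exact ⟨by linarith [ell_nonneg p q, Real.pi_pos], ell_le p q⟩
      · exact ⟨by linarith [Real.pi_pos], le_rfl⟩
    · intro h
      rw [h, Real.sin_pi_div_two, mul_one]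

/-- **The exact value.** -/
theorem isLeast [FiniteDimensional ℝ K] (hn : 2 ≤ n) {U : Set (ℙ K (Fin n → K))} (hU : OpenSet U)
    (g : Fin n → ℙ K (Fin n → K)) (hg : ∀ i, g i ∈ U)
    (hgo : ∀ i l, i ≠ l → ell (g i) (g l) = Real.pi / 2) :
    IsLeast {m : ℕ | ∃ φ : ℙ K (Fin n → K) → EuclideanSpace ℝ (Fin m), ContOn U φ ∧ Preserves U φ}
      (n - 1 + (∑ j ∈ Finset.range n, (n - 1 - j)) * Module.finrank ℝ K) := by
  have hlow : ∀ m : ℕ, (∃ φ : ℙ K (Fin n → K) → EuclideanSpace ℝ (Fin m), ContOn U φ ∧ Preserves U φ) →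
      n - 1 + (∑ j ∈ Finset.range n, (n - 1 - j)) * Module.finrank ℝ K ≤ m := by
    rintro m ⟨φ, hc, hd⟩
    exact lower_proj hn le_rfl hU g hg hgo hc hd
  constructor
  · obtain ⟨φ, hφ⟩ := exists_map (g ⟨0, by omega⟩)
    have h1 := map_props (hg ⟨0, by omega⟩) (hg ⟨1, by omega⟩) (hgo _ _ (by simp)) φ hφ
    have h2 := hlow _ ⟨φ, h1⟩
    have h3 := finrank_Herm0 (K := K) (n := n) (by omega)
    have h4 := le_antisymm h3 h2
    rw [← h4]
    exact ⟨φ, h1⟩
  · intro m hm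
    exact hlow m hm

theorem sum_closed (n k : ℕ) (hk : k ≤ n) :
    ∑ j ∈ Finset.range k, (n - 1 - j) = k * n - k * (k + 1) / 2 := by
  have h : 2 * ∑ j ∈ Finset.range k, (n - 1 - j) + k * (k + 1) = 2 * (k * n) := by
    clear * - hk
    induction k with
    | zero => simp
    | succ k ih =>
      rw [Finset.sum_range_succ]
      have := ih (by omega)
      obtain ⟨d, rfl⟩ : ∃ d, n = k + 1 + d := ⟨n - (k + 1), by omega⟩
      have e : k + 1 + d - 1 - k = d := by omega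
      rw [e]
      nlinarith
  have h2 : 2 ∣ k * (k + 1) := (Nat.even_mul_succ_self k).two_dvd
  obtain ⟨c, hc⟩ := h2
  rw [hc] at h ⊢
  rw [Nat.mul_div_cancel_left _ two_pos]
  omega

/-- The standard frame. -/
theorem exists_std (hn : 1 ≤ n) : ∃ g : Fin n → ℙ K (Fin n → K),
    ∀ i l, i ≠ l → ell (g i) (g l) = Real.pi / 2 := by
  classical
  have h0 : ∀ i : Fin n, (Pi.single i 1 : Fin n → K) ≠ 0 := by
    intro i h
    have := congrFun h i
    simp at this
  refine ⟨fun i => Projectivization.mk K (Pi.single i 1) (h0 i), fun i l hil => ?_⟩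
  rw [ell_zero, herm]
  apply Finset.sum_eq_zero
  intro j _
  by_cases hj : j = i
  · subst hj
    rw [Pi.single_eq_of_ne hil, star_zero, mul_zero]
  · rw [Pi.single_eq_of_ne hj, zero_mul]

end Pool.Agent.KS6_53.El
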